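import Mathlib
import Pool.Agent.Y947.RL.Stm4

/-!
# Project RL of helper947, statement T_REP (helper858)

Minimal polynomials over the field of all roots of unity come from `ℤ[T][X]`.
-/

set_option autoImplicit false

open Polynomial IntermediateField Pool.Agent.Y947.RL

namespace Pool.Agent.Y858.RL

/-- the standard primitive root of unity -/
noncomputable def ze (m : ℕ) : ℂ := Complex.exp (2 * Real.pi * Complex.I / m)

lemma ze_prim {m : ℕ} (hm : 0 < m) : IsPrimitiveRoot (ze m) m :=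
  Complex.isPrimitiveRoot_exp m hm.ne'

lemma adj_mono {m n : ℕ} (hn : 0 < n) (h : m ∣ n) : ℚ⟮ze m⟯ ≤ ℚ⟮ze n⟯ := by
  have hm : 0 < m := Nat.pos_of_dvd_of_pos h hn
  rw [adjoin_simple_le_iff]
  have : NeZero n := ⟨hn.ne'⟩
  have h1 : (ze m) ^ n = 1 := (ze_prim hm).pow_eq_one_iff_dvd n |>.2 h
  obtain ⟨i, -, hi⟩ := (ze_prim hn).eq_pow_of_pow_eq_one h1
  rw [← hi]
  exact pow_mem (mem_adjoin_simple_self ℚ (ze n)) i

lemma exists_level {x : ℂ} (hx : x ∈ QAb) : ∃ m : ℕ, 0 < m ∧ x ∈ ℚ⟮ze m⟯ := by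
  unfold QAb at hx
  induction hx using IntermediateField.adjoin_induction with
  | mem x hx =>
    obtain ⟨n, hn, hxn⟩ := hx
    refine ⟨n, hn, ?_⟩
    have : NeZero n := ⟨hn.ne'⟩
    obtain ⟨i, -, hi⟩ := (ze_prim hn).eq_pow_of_pow_eq_one hxn
    rw [← hi]
    exact pow_mem (mem_adjoin_simple_self ℚ (ze n)) i
  | algebraMap q => exact ⟨1, one_pos, IntermediateField.algebraMap_mem _ q⟩
  | add x y _ _ h1 h2 =>
    obtain ⟨m, hm, h1⟩ := h1
    obtain ⟨n, hn, h2⟩ := h2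
    exact ⟨m * n, Nat.mul_pos hm hn, add_mem (adj_mono (Nat.mul_pos hm hn) (dvd_mul_right m n) h1)
      (adj_mono (Nat.mul_pos hm hn) (dvd_mul_left n m) h2)⟩
  | inv x _ h1 =>
    obtain ⟨m, hm, h1⟩ := h1
    exact ⟨m, hm, inv_mem h1⟩
  | mul x y _ _ h1 h2 =>
    obtain ⟨m, hm, h1⟩ := h1
    obtain ⟨n, hn, h2⟩ := h2
    exact ⟨m * n, Nat.mul_pos hm hn, mul_mem (adj_mono (Nat.mul_pos hm hn) (dvd_mul_right m n) h1)
      (adj_mono (Nat.mul_pos hm hn) (dvd_mul_left n m) h2)⟩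

lemma exists_level_poly (P : QAb[X]) : ∃ m : ℕ, 0 < m ∧ ∀ k, (P.coeff k : ℂ) ∈ ℚ⟮ze m⟯ := by
  classical
  choose f hf0 hf using fun k => exists_level (P.coeff k).2
  have hpos : 0 < ∏ k ∈ Finset.range (P.natDegree + 1), f k := Finset.prod_pos fun k _ => hf0 k
  refine ⟨∏ k ∈ Finset.range (P.natDegree + 1), f k, hpos, fun k => ?_⟩
  by_cases hk : k < P.natDegree + 1
  · exact adj_mono hpos (Finset.dvd_prod_of_mem f (Finset.mem_range.2 hk)) (hf k)
  · rw [coeff_eq_zero_of_natDegree_lt (by omega)]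
    exact zero_mem _

lemma ze_mem {m : ℕ} (hm : 0 < m) : ze m ∈ QAb :=
  subset_adjoin ℚ _ ⟨m, hm, (ze_prim hm).pow_eq_one⟩

/-- the coefficients of the minimal polynomial are integral -/
lemma coeff_int {z : ℂ} (hz : IsIntegral ℤ z) (k : ℕ) : IsIntegral ℤ ((minpoly QAb z).coeff k) := by
  have halg : Algebra.IsAlgebraic ℚ QAb := by
    rw [show (Algebra.IsAlgebraic ℚ QAb) ↔ Algebra.IsAlgebraic ℚ (IntermediateField.adjoin ℚ
      {z : ℂ | ∃ n : ℕ, 0 < n ∧ z ^ n = 1}) from Iff.rfl]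
    apply isAlgebraic_adjoin
    rintro x ⟨n, hn, hx⟩
    refine ⟨X ^ n - 1, monic_X_pow_sub_C 1 hn.ne', ?_⟩
    simp [hx]
  have : Algebra.IsAlgebraic ℤ QAb := (IsFractionRing.comap_isAlgebraic_iff (A := ℤ) (K := ℚ)).2 halg
  have hfr : IsFractionRing (integralClosure ℤ QAb) QAb :=
    integralClosure.isFractionRing_of_algebraic fun x hx => by
      simpa using hx
  have hic : IsIntegrallyClosed (integralClosure ℤ QAb) := by
    rw [isIntegrallyClosed_iff_isIntegrallyClosedIn QAb]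
    infer_instance
  have h2 : IsIntegral (integralClosure ℤ QAb) z := hz.tower_top
  have h3 := minpoly.isIntegrallyClosed_eq_field_fractions' (R := integralClosure ℤ QAb) QAb h2
  rw [h3, coeff_map]
  exact ((minpoly (integralClosure ℤ QAb) z).coeff k).2

lemma lift_coeff {m : ℕ} (hm : 0 < m) {c : QAb} (hc : IsIntegral ℤ c) (hcm : (c : ℂ) ∈ ℚ⟮ze m⟯) :
    ∃ q : ℤ[X], aeval (⟨ze m, ze_mem hm⟩ : QAb) q = c := by
  have : NeZero m := ⟨hm.ne'⟩
  let w : ℚ⟮ze m⟯ := AdjoinSimple.gen ℚ (ze m)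
  have hwK : algebraMap ℚ⟮ze m⟯ ℂ w = ze m := AdjoinSimple.algebraMap_gen ℚ (ze m)
  have hw : IsPrimitiveRoot w m := by
    have := ze_prim hm
    rw [← hwK] at this
    exact this.of_map_of_injective (algebraMap ℚ⟮ze m⟯ ℂ).injective
  have : IsCyclotomicExtension {m} ℚ ℚ⟮ze m⟯ := by
    change IsCyclotomicExtension {m} ℚ (IntermediateField.adjoin ℚ {ze m}).toSubalgebra
    have ha : IsAlgebraic ℚ (ze m) := ((ze_prim hm).isIntegral hm).tower_top.isAlgebraic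
    rw [IntermediateField.adjoin_simple_toSubalgebra_of_isAlgebraic ha]
    exact (ze_prim hm).adjoin_isCyclotomicExtension ℚ
  have hic := IsCyclotomicExtension.Rat.isIntegralClosure_adjoin_singleton hw
  have hcC : IsIntegral ℤ (c : ℂ) := hc.map (QAb.val.toRingHom.toIntAlgHom)
  have hcc : IsIntegral ℤ (⟨(c : ℂ), hcm⟩ : ℚ⟮ze m⟯) := by
    rw [← isIntegral_algHom_iff (ℚ⟮ze m⟯.val.toRingHom.toIntAlgHom) Subtype.val_injective]
    exact hcC
  obtain ⟨y, hy⟩ := hic.isIntegral_iff.1 hcc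
  have h4 : (y : ℚ⟮ze m⟯) ∈ (aeval w : ℤ[X] →ₐ[ℤ] ℚ⟮ze m⟯).range := by
    rw [← Algebra.adjoin_singleton_eq_range_aeval]
    exact y.2
  obtain ⟨q, hq⟩ := h4
  refine ⟨q, ?_⟩
  apply Subtype.val_injective
  have h5 : aeval w q = (⟨(c : ℂ), hcm⟩ : ℚ⟮ze m⟯) := hq.trans hy
  have h6 : algebraMap ℚ⟮ze m⟯ ℂ (aeval w q) = (c : ℂ) := by rw [h5]; rfl
  rw [← aeval_algebraMap_apply, hwK] at h6
  have h7 : algebraMap QAb ℂ (aeval (⟨ze m, ze_mem hm⟩ : QAb) q) = aeval (ze m) q := by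
    rw [← aeval_algebraMap_apply]; rfl
  exact h7.trans h6

theorem rep : T_REP := by
  intro z hz
  obtain ⟨m, hm, hP⟩ := exists_level_poly (minpoly QAb z)
  have hprim : IsPrimitiveRoot (⟨ze m, ze_mem hm⟩ : QAb) m :=
    IsPrimitiveRoot.of_map_of_injective (f := algebraMap QAb ℂ) (ze_prim hm)
      (algebraMap QAb ℂ).injective
  have hmon : (minpoly QAb z).Monic := minpoly.monic hz.tower_top
  have hint : ∀ k, (minpoly QAb z).coeff k ∈ Set.range
      ((aeval (⟨ze m, ze_mem hm⟩ : QAb) : ℤ[X] →ₐ[ℤ] QAb).toRingHom) := by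
    intro k
    exact lift_coeff hm (coeff_int hz k) (hP k)
  obtain ⟨Q, hQ1, -, hQ2⟩ := lifts_and_natDegree_eq_and_monic
    ((lifts_iff_coeff_lifts _).2 hint) hmon
  exact ⟨m, _, Q, hm, hprim, hQ2, hQ1⟩

end Pool.Agent.Y858.RL
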